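import Mathlib

/-! Quadratic word equations with few repeated variables (MP_fc7ad9_lc). Helper module:
patterns, symbols and their values. -/

namespace WE45

variable {A V : Type*}

/-- `Mt S u`: the word `u` matches the pattern `S` (`none` matches any word). -/
def Mt : List (Option A) → List A → Prop
  | [], u => u = []
  | some a :: S, u => ∃ u', u = a :: u' ∧ Mt S u'
  | none :: S, u => ∃ v u', u = v ++ u' ∧ Mt S u'

/-- number of constants of a pattern -/
def cP : List (Option A) → ℕ
  | [] => 0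
  | some _ :: S => cP S + 1
  | none :: S => cP S

theorem mt_cut : ∀ (S : List (Option A)) (u v : List A), Mt S (u ++ v) →
    ∃ S1 S2 : List (Option A), Mt S1 u ∧ Mt S2 v ∧ cP S1 + cP S2 ≤ cP S ∧
      ∀ u' v', Mt S1 u' → Mt S2 v' → Mt S (u' ++ v')
  | [], u, v, h => by
      have h' : u ++ v = [] := h
      rw [List.append_eq_nil_iff] at h'
      refine ⟨[], [], h'.1, h'.2, le_refl _, ?_⟩
      intro u' v' h1 h2
      have h3 : u' = [] := h1
      have h4 : v' = [] := h2
      subst h3; subst h4; rfl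
  | some a :: S, u, v, h => by
      obtain ⟨w, hw, hS⟩ := h
      cases u with
      | nil =>
        refine ⟨[], some a :: S, rfl, ⟨w, by simpa using hw, hS⟩, by simp [cP], ?_⟩
        intro u' v' h1 h2
        have h3 : u' = [] := h1
        subst h3; simpa using h2
      | cons b u =>
        rw [List.cons_append, List.cons.injEq] at hw
        obtain ⟨rfl, rfl⟩ := hw
        obtain ⟨S1, S2, h1, h2, h3, h4⟩ := mt_cut S u v hS
        refine ⟨some b :: S1, S2, ⟨u, rfl, h1⟩, h2, by simp only [cP]; omega, ?_⟩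
        rintro u' v' ⟨x, rfl, hx⟩ h2'
        exact ⟨x ++ v', by simp, h4 x v' hx h2'⟩
  | none :: S, u, v, h => by
      obtain ⟨x, w, hw, hS⟩ := h
      rcases List.append_eq_append_iff.1 hw with ⟨y, rfl, rfl⟩ | ⟨y, rfl, rfl⟩
      · refine ⟨[none], none :: S, ⟨u, [], by simp, rfl⟩, ⟨y, w, rfl, hS⟩, by simp [cP], ?_⟩
        rintro u' v' - ⟨z, t, rfl, ht⟩
        exact ⟨u' ++ z, t, by simp, ht⟩
      · obtain ⟨S1, S2, h1, h2, h3, h4⟩ := mt_cut S y v hS
        refine ⟨none :: S1, S2, ⟨x, y, rfl, h1⟩, h2, by simpa only [cP] using h3, ?_⟩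
        rintro u' v' ⟨z, t, rfl, ht⟩ h2'
        exact ⟨z, t ++ v', by simp, h4 t v' ht h2'⟩

theorem mt_star_cons {S : List (Option A)} {u : List A} (b : A) (h : Mt (none :: S) u) :
    Mt (none :: S) (b :: u) := by
  obtain ⟨v, u', rfl, h⟩ := h
  exact ⟨b :: v, u', by simp, h⟩

theorem mt_star_inv {S : List (Option A)} {b : A} {u : List A}
    (h : Mt (none :: S) (b :: u)) : Mt S (b :: u) ∨ Mt (none :: S) u := by
  obtain ⟨v, u', hu, h⟩ := h
  cases v with
  | nil => left; rw [List.nil_append] at hu; rw [hu]; exact h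
  | cons c v =>
    right
    rw [List.cons_append, List.cons.injEq] at hu
    exact ⟨v, u', hu.2, h⟩

theorem mt_skip {S : List (Option A)} {u : List A} (h : Mt S u) : Mt (none :: S) u :=
  ⟨[], u, rfl, h⟩

theorem mt_star_nil {S : List (Option A)} (h : Mt (none :: S) []) : Mt S [] := by
  obtain ⟨v, u', hu, h⟩ := h
  have := (List.append_eq_nil_iff.1 hu.symm).2
  rwa [this] at h

theorem common (n : ℕ) : ∀ (S S' : List (Option A)) (u : List A),
    S.length + S'.length + u.length ≤ n → Mt S u → Mt S' u →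
      ∃ u0, Mt S u0 ∧ Mt S' u0 ∧ u0.length ≤ cP S + cP S' := by
  induction n with
  | zero =>
    intro S S' u hn h h'
    have h1 : S = [] := List.length_eq_zero_iff.1 (by omega)
    have h2 : S' = [] := List.length_eq_zero_iff.1 (by omega)
    subst h1; subst h2
    exact ⟨[], rfl, rfl, by simp⟩
  | succ n ih =>
    intro S S' u hn h h'
    match S, S' with
    | [], S' =>
      have h3 : u = [] := h
      subst h3
      exact ⟨[], rfl, h', by simp⟩
    | some a :: S1, [] =>
      have h3 : u = [] := h'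
      subst h3
      exact ⟨[], h, rfl, by simp⟩
    | none :: S1, [] =>
      have h3 : u = [] := h'
      subst h3
      exact ⟨[], h, rfl, by simp⟩
    | some a :: S1, some b :: S1' =>
      obtain ⟨u1, rfl, h1⟩ := h
      obtain ⟨u2, hu, h2⟩ := h'
      rw [List.cons.injEq] at hu
      obtain ⟨rfl, rfl⟩ := hu
      obtain ⟨u0, h3, h4, h5⟩ := ih S1 S1' u1 (by simp at hn ⊢; omega) h1 h2
      exact ⟨a :: u0, ⟨u0, rfl, h3⟩, ⟨u0, rfl, h4⟩, by simp [cP]; omega⟩
    | some a :: S1, none :: S1' =>
      have hh := h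
      obtain ⟨u1, rfl, h1⟩ := h
      rcases mt_star_inv h' with h2 | h2
      · obtain ⟨u0, h3, h4, h5⟩ := ih (some a :: S1) S1' (a :: u1)
          (by simp at hn ⊢; omega) hh h2
        exact ⟨u0, h3, mt_skip h4, by simpa only [cP] using h5⟩
      · obtain ⟨u0, h3, h4, h5⟩ := ih S1 (none :: S1') u1 (by simp at hn ⊢; omega) h1 h2
        exact ⟨a :: u0, ⟨u0, rfl, h3⟩, mt_star_cons a h4,
          by simp only [cP, List.length_cons] at h5 ⊢; omega⟩
    | none :: S1, some b :: S1' =>
      have hh := h'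
      obtain ⟨u1, rfl, h1⟩ := h'
      rcases mt_star_inv h with h2 | h2
      · obtain ⟨u0, h3, h4, h5⟩ := ih S1 (some b :: S1') (b :: u1)
          (by simp at hn ⊢; omega) h2 hh
        exact ⟨u0, mt_skip h3, h4, by simpa only [cP] using h5⟩
      · obtain ⟨u0, h3, h4, h5⟩ := ih (none :: S1) S1' u1 (by simp at hn ⊢; omega) h2 h1
        exact ⟨b :: u0, mt_star_cons b h3, ⟨u0, rfl, h4⟩,
          by simp only [cP, List.length_cons] at h5 ⊢; omega⟩
    | none :: S1, none :: S1' =>
      cases u with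
      | nil =>
        obtain ⟨u0, h3, h4, h5⟩ := ih S1 (none :: S1') []
          (by simp at hn ⊢; omega) (mt_star_nil h) h'
        exact ⟨u0, mt_skip h3, h4, by simpa only [cP] using h5⟩
      | cons b u =>
        rcases mt_star_inv h with h1 | h1
        · obtain ⟨u0, h3, h4, h5⟩ := ih S1 (none :: S1') (b :: u)
            (by simp at hn ⊢; omega) h1 h'
          exact ⟨u0, mt_skip h3, h4, by simpa only [cP] using h5⟩
        · rcases mt_star_inv h' with h2 | h2
          · obtain ⟨u0, h3, h4, h5⟩ := ih (none :: S1) S1' (b :: u)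
              (by simp at hn ⊢; omega) h h2
            exact ⟨u0, h3, mt_skip h4, by simpa only [cP] using h5⟩
          · exact ih (none :: S1) (none :: S1') u (by simp at hn ⊢; omega) h1 h2

/-- Symbols: segments (patterns) and paired variables. -/
inductive Sym (A V : Type*)
  | seg (S : List (Option A))
  | var (x : V)
  deriving DecidableEq

/-- value of a symbol -/
def SV (σ : V → List A) : Sym A V → List A → Prop
  | .seg S, u => Mt S u
  | .var x, u => u = σ x

/-- `Val σ l w`: the word `w` is a value of the list `l` of symbols. -/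
def Val (σ : V → List A) : List (Sym A V) → List A → Prop
  | [], w => w = []
  | p :: l, w => ∃ u w', w = u ++ w' ∧ SV σ p u ∧ Val σ l w'

theorem val_append (σ : V → List A) : ∀ (l1 l2 : List (Sym A V)) (w : List A),
    Val σ (l1 ++ l2) w ↔ ∃ u v, w = u ++ v ∧ Val σ l1 u ∧ Val σ l2 v
  | [], l2, w => by
      constructor
      · intro h; exact ⟨[], w, rfl, rfl, h⟩
      · rintro ⟨u, v, rfl, h1, h2⟩
        have h3 : u = [] := h1
        subst h3; exact h2
  | p :: l1, l2, w => by
      constructor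
      · rintro ⟨u, w', rfl, h1, h2⟩
        obtain ⟨u', v', rfl, h3, h4⟩ := (val_append σ l1 l2 w').1 h2
        exact ⟨u ++ u', v', by simp, ⟨u, u', rfl, h1, h3⟩, h4⟩
      · rintro ⟨u, v, rfl, ⟨u1, u2, rfl, h1, h2⟩, h3⟩
        exact ⟨u1, u2 ++ v, by simp, h1, (val_append σ l1 l2 _).2 ⟨u2, v, rfl, h2, h3⟩⟩

theorem sv_congr {σ σ' : V → List A} {p : Sym A V} {u : List A}
    (h : ∀ x, p = .var x → σ x = σ' x) (hp : SV σ p u) : SV σ' p u := by
  cases p with
  | seg S => exact hp
  | var x =>
    have h1 : u = σ x := hp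
    have h2 : u = σ' x := by rw [h1]; exact h x rfl
    exact h2

theorem val_congr {σ σ' : V → List A} : ∀ (l : List (Sym A V)) (w : List A),
    (∀ x, .var x ∈ l → σ x = σ' x) → Val σ l w → Val σ' l w
  | [], _, _, h => h
  | p :: l, _, hx, ⟨u, w', hw, h1, h2⟩ =>
      ⟨u, w', hw, sv_congr (fun x hp => hx x (by simp [hp])) h1,
        val_congr l w' (fun x hm => hx x (List.mem_cons_of_mem _ hm)) h2⟩

theorem val_single (σ : V → List A) (p : Sym A V) (u : List A) :
    Val σ [p] u ↔ SV σ p u := by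
  constructor
  · rintro ⟨a, b, rfl, h1, h2⟩
    have h3 : b = [] := h2
    subst h3; simpa using h1
  · intro h; exact ⟨u, [], by simp, h, rfl⟩

/-- number of constants in a symbol -/
def cS : Sym A V → ℕ
  | .seg S => cP S
  | .var _ => 0

/-- number of constants in a list of symbols -/
def cc (l : List (Sym A V)) : ℕ := (l.map cS).sum

theorem cc_cons (p : Sym A V) (l : List (Sym A V)) : cc (p :: l) = cS p + cc l := by
  simp [cc]

theorem cc_append (l l' : List (Sym A V)) : cc (l ++ l') = cc l + cc l' := by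
  simp [cc]

theorem cc_perm {l l' : List (Sym A V)} (h : l.Perm l') : cc l = cc l' :=
  (h.map cS).sum_eq

/-- `Sol T B n`: the pair of lists has a common value of length `n`. -/
def Sol (T B : List (Sym A V)) (n : ℕ) : Prop :=
  ∃ (σ : V → List A) (w : List A), Val σ T w ∧ Val σ B w ∧ w.length = n

theorem Sol.swap {T B : List (Sym A V)} {n : ℕ} (h : Sol T B n) : Sol B T n := by
  obtain ⟨σ, w, h1, h2, h3⟩ := h
  exact ⟨σ, w, h2, h1, h3⟩

variable [DecidableEq A] [DecidableEq V]

/-- every variable occurs 0 or 2 times -/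
def Paired (l : List (Sym A V)) : Prop :=
  ∀ x : V, l.count (.var x) = 0 ∨ l.count (.var x) = 2

theorem Paired.perm {l l' : List (Sym A V)} (h : Paired l) (hp : l.Perm l') : Paired l' := by
  intro x
  rw [← hp.count_eq]
  exact h x

theorem Paired.drop_two {l : List (Sym A V)} {x : V}
    (h : Paired (.var x :: .var x :: l)) : Paired l := by
  intro z
  have := h z
  simp only [List.count_cons] at this
  by_cases hz : (Sym.var x : Sym A V) = Sym.var z
  · simp only [hz, beq_self_eq_true, if_true] at this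
    omega
  · simp only [beq_eq_false_iff_ne.2 hz, Bool.false_eq_true, if_false] at this
    omega

theorem Paired.drop_seg {l : List (Sym A V)} {S : List (Option A)}
    (h : Paired (.seg S :: l)) : Paired l := by
  intro z
  have := h z
  simpa [List.count_cons] using this

theorem Paired.add_seg {l : List (Sym A V)} {S : List (Option A)}
    (h : Paired l) : Paired (.seg S :: l) := by
  intro z
  have := h z
  simpa [List.count_cons] using this

/-- The context around the single remaining occurrence of `y`. -/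
theorem ctx (y : V) (T B : List (Sym A V)) (h : (T ++ B).count (.var y) = 1) :
    ∃ (F : List (Sym A V) → List (Sym A V) × List (Sym A V))
      (K : (V → List A) → List A → List A → List A → Prop) (rest : List (Sym A V)),
      F [.var y] = (T, B) ∧
      (∀ r, ((F r).1 ++ (F r).2).Perm (r ++ rest)) ∧
      (∀ r σ w1 w2, (Val σ (F r).1 w1 ∧ Val σ (F r).2 w2) ↔ ∃ u, Val σ r u ∧ K σ u w1 w2) ∧
      (∀ σ σ' u w1 w2, (∀ z, z ≠ y → σ z = σ' z) → K σ u w1 w2 → K σ' u w1 w2) ∧
      (∀ σ u w1 w2, K σ u w1 w2 → u.length ≤ max w1.length w2.length) := by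
  have hmem : (Sym.var y : Sym A V) ∈ T ++ B := List.count_pos_iff.1 (by omega)
  rcases List.mem_append.1 hmem with hT | hB
  · obtain ⟨T1, T2, rfl⟩ := List.append_of_mem hT
    have hc : T1.count (Sym.var y) + T2.count (Sym.var y) + B.count (Sym.var y) = 0 := by
      simp only [List.count_append, List.count_cons_self] at h
      omega
    have n1 : (Sym.var y : Sym A V) ∉ T1 := List.count_eq_zero.1 (by omega)
    have n2 : (Sym.var y : Sym A V) ∉ T2 := List.count_eq_zero.1 (by omega)
    have n3 : (Sym.var y : Sym A V) ∉ B := List.count_eq_zero.1 (by omega)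
    refine ⟨fun r => (T1 ++ r ++ T2, B), fun σ u w1 w2 => ∃ a b, w1 = a ++ u ++ b ∧
      Val σ T1 a ∧ Val σ T2 b ∧ Val σ B w2, T1 ++ T2 ++ B, by simp, ?_, ?_, ?_, ?_⟩
    · intro r
      show (T1 ++ r ++ T2 ++ B).Perm (r ++ (T1 ++ T2 ++ B))
      have h1 : (T1 ++ r ++ (T2 ++ B)).Perm (r ++ T1 ++ (T2 ++ B)) :=
        List.Perm.append_right _ List.perm_append_comm
      simpa [List.append_assoc] using h1
    · intro r σ w1 w2
      constructor
      · rintro ⟨h1, h2⟩
        obtain ⟨u1, b, rfl, h3, h4⟩ := (val_append σ _ _ _).1 h1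
        obtain ⟨a, u, rfl, h5, h6⟩ := (val_append σ _ _ _).1 h3
        exact ⟨u, h6, a, b, rfl, h5, h4, h2⟩
      · rintro ⟨u, h1, a, b, rfl, h2, h3, h4⟩
        exact ⟨(val_append σ _ _ _).2 ⟨a ++ u, b, rfl,
          (val_append σ _ _ _).2 ⟨a, u, rfl, h2, h1⟩, h3⟩, h4⟩
    · rintro σ σ' u w1 w2 hz ⟨a, b, rfl, h2, h3, h4⟩
      refine ⟨a, b, rfl, val_congr _ _ ?_ h2, val_congr _ _ ?_ h3, val_congr _ _ ?_ h4⟩
      · intro x hx; exact hz x (fun e => n1 (e ▸ hx))
      · intro x hx; exact hz x (fun e => n2 (e ▸ hx))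
      · intro x hx; exact hz x (fun e => n3 (e ▸ hx))
    · rintro σ u w1 w2 ⟨a, b, rfl, -, -, -⟩
      simp only [List.length_append]
      omega
  · obtain ⟨B1, B2, rfl⟩ := List.append_of_mem hB
    have hc : B1.count (Sym.var y) + B2.count (Sym.var y) + T.count (Sym.var y) = 0 := by
      simp only [List.count_append, List.count_cons_self] at h
      omega
    have n1 : (Sym.var y : Sym A V) ∉ B1 := List.count_eq_zero.1 (by omega)
    have n2 : (Sym.var y : Sym A V) ∉ B2 := List.count_eq_zero.1 (by omega)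
    have n3 : (Sym.var y : Sym A V) ∉ T := List.count_eq_zero.1 (by omega)
    refine ⟨fun r => (T, B1 ++ r ++ B2), fun σ u w1 w2 => ∃ a b, w2 = a ++ u ++ b ∧
      Val σ B1 a ∧ Val σ B2 b ∧ Val σ T w1, T ++ (B1 ++ B2), by simp, ?_, ?_, ?_, ?_⟩
    · intro r
      show (T ++ (B1 ++ r ++ B2)).Perm (r ++ (T ++ (B1 ++ B2)))
      have h1 : ((T ++ B1) ++ r ++ B2).Perm (r ++ (T ++ B1) ++ B2) :=
        List.Perm.append_right _ List.perm_append_comm
      simpa [List.append_assoc] using h1
    · intro r σ w1 w2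
      constructor
      · rintro ⟨h1, h2⟩
        obtain ⟨u1, b, rfl, h3, h4⟩ := (val_append σ _ _ _).1 h2
        obtain ⟨a, u, rfl, h5, h6⟩ := (val_append σ _ _ _).1 h3
        exact ⟨u, h6, a, b, rfl, h5, h4, h1⟩
      · rintro ⟨u, h1, a, b, rfl, h2, h3, h4⟩
        exact ⟨h4, (val_append σ _ _ _).2 ⟨a ++ u, b, rfl,
          (val_append σ _ _ _).2 ⟨a, u, rfl, h2, h1⟩, h3⟩⟩
    · rintro σ σ' u w1 w2 hz ⟨a, b, rfl, h2, h3, h4⟩
      refine ⟨a, b, rfl, val_congr _ _ ?_ h2, val_congr _ _ ?_ h3, val_congr _ _ ?_ h4⟩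
      · intro x hx; exact hz x (fun e => n1 (e ▸ hx))
      · intro x hx; exact hz x (fun e => n2 (e ▸ hx))
      · intro x hx; exact hz x (fun e => n3 (e ▸ hx))
    · rintro σ u w1 w2 ⟨a, b, rfl, -, -, -⟩
      simp only [List.length_append]
      omega

end WE45
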