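import Pool.Agent.WE45.Step

/-! Quadratic word equations with few repeated variables (MP_fc7ad9_lc). Helper module:
counting the states with the same symbols. -/

namespace WE45

open scoped Nat

variable {A V : Type*} [DecidableEq A] [DecidableEq V]

/-- least length of a common value -/
noncomputable def N (T B : List (Sym A V)) : ℕ := sInf {n | Sol T B n}

omit [DecidableEq A] [DecidableEq V] in
theorem N_sol {T B : List (Sym A V)} (h : ∃ n, Sol T B n) : Sol T B (N T B) :=
  Nat.sInf_mem (s := {n | Sol T B n}) h

omit [DecidableEq A] [DecidableEq V] in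
theorem N_le {T B : List (Sym A V)} {n : ℕ} (h : Sol T B n) : N T B ≤ n :=
  Nat.sInf_le (s := {n | Sol T B n}) h

/-- all pairs of lists with the given symbols -/
def states (l : List (Sym A V)) : Finset (List (Sym A V) × List (Sym A V)) :=
  (l.permutations.toFinset ×ˢ Finset.range (l.length + 1)).image
    (fun q => (q.1.take q.2, q.1.drop q.2))

theorem mem_states {l T B : List (Sym A V)} (h : (T ++ B).Perm l) : (T, B) ∈ states l := by
  refine Finset.mem_image.2 ⟨(T ++ B, T.length), ?_, ?_⟩
  · rw [Finset.mem_product, List.mem_toFinset, List.mem_permutations, Finset.mem_range]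
    refine ⟨h, ?_⟩
    have := h.length_eq
    simp only [List.length_append] at this
    show T.length < l.length + 1
    omega
  · simp

theorem card_states (l : List (Sym A V)) : (states l).card ≤ (l.length + 1)! := by
  refine Finset.card_image_le.trans ?_
  rw [Finset.card_product, Finset.card_range, Nat.factorial_succ, mul_comm]
  refine Nat.mul_le_mul_left _ ?_
  exact (List.toFinset_card_le _).trans (by rw [List.length_permutations])

omit [DecidableEq A] [DecidableEq V] in
theorem N_nil_left {B : List (Sym A V)} (h : ∃ n, Sol [] B n) : N [] B = 0 := by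
  obtain ⟨σ, w, h1, h2, h3⟩ := N_sol h
  have h4 : w = [] := h1
  rw [h4] at h3
  simpa using h3.symm

omit [DecidableEq A] [DecidableEq V] in
theorem N_nil_right {T : List (Sym A V)} (h : ∃ n, Sol T [] n) : N T [] = 0 := by
  obtain ⟨σ, w, h1, h2, h3⟩ := N_sol h
  have h4 : w = [] := h2
  rw [h4] at h3
  simpa using h3.symm

theorem class_bound (l : List (Sym A V)) (hl : Paired l) (H : ℕ)
    (hH : ∀ T' B' : List (Sym A V), Paired (T' ++ B') → (T' ++ B').length < l.length →
      cc (T' ++ B') ≤ cc l → (∃ n', Sol T' B' n') → 2 * N T' B' + cc l ≤ H) :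
    ∀ (n : ℕ) (T B : List (Sym A V)), (T ++ B).Perm l → (∃ n', Sol T B n') → N T B = n →
      N T B ≤ 2 ^ ((states l).filter (fun E => N E.1 E.2 < N T B)).card * H := by
  intro n
  induction n using Nat.strong_induction_on with
  | _ n ih =>
    intro T B hp hs hn
    cases T with
    | nil => rw [N_nil_left hs]; exact Nat.zero_le _
    | cons p T =>
      cases B with
      | nil => rw [N_nil_right hs]; exact Nat.zero_le _
      | cons q B =>
        have e := cc_perm hp
        rcases red_step (hl.perm hp.symm) (N_sol hs) with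
          ⟨T', B', h1, h2, h3, h4, h5⟩ | ⟨T', B', h1, ⟨n', h2, h3⟩, h4⟩
        · obtain ⟨n'', h6, h7⟩ := h5 _ (N_sol h4)
          have h8 := hH T' B' h1 (by rwa [← hp.length_eq]) (by rwa [← e]) h4
          rw [e] at h6
          calc N (p :: T) (q :: B) ≤ n'' := N_le h7
            _ ≤ H := by omega
            _ ≤ 2 ^ ((states l).filter
                (fun E => N E.1 E.2 < N (p :: T) (q :: B))).card * H :=
              Nat.le_mul_of_pos_left _ (by positivity)
        · have hlt : N T' B' < N (p :: T) (q :: B) := lt_of_le_of_lt (N_le h3) h2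
          have hp' : (T' ++ B').Perm l := h1.symm.trans hp
          have ih' := ih (N T' B') (hn ▸ hlt) T' B' hp' ⟨n', h3⟩ rfl
          obtain ⟨n'', h6, h7⟩ := h4 _ (N_sol ⟨n', h3⟩)
          have hcard : ((states l).filter (fun E => N E.1 E.2 < N T' B')).card + 1 ≤
              ((states l).filter (fun E => N E.1 E.2 < N (p :: T) (q :: B))).card := by
            refine Finset.card_lt_card ?_
            rw [Finset.ssubset_iff_of_subset]
            · refine ⟨(T', B'), ?_, ?_⟩
              · rw [Finset.mem_filter]
                exact ⟨mem_states hp', hlt⟩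
              · rw [Finset.mem_filter]
                rintro ⟨-, h9⟩
                exact lt_irrefl _ h9
            · intro E hE
              rw [Finset.mem_filter] at hE ⊢
              exact ⟨hE.1, hE.2.trans hlt⟩
          calc N (p :: T) (q :: B) ≤ n'' := N_le h7
            _ ≤ 2 * N T' B' := h6
            _ ≤ 2 * (2 ^ ((states l).filter (fun E => N E.1 E.2 < N T' B')).card * H) :=
              Nat.mul_le_mul_left _ ih'
            _ = 2 ^ (((states l).filter (fun E => N E.1 E.2 < N T' B')).card + 1) * H := by
              ring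
            _ ≤ 2 ^ ((states l).filter
                (fun E => N E.1 E.2 < N (p :: T) (q :: B))).card * H :=
              Nat.mul_le_mul_right _ (Nat.pow_le_pow_right (by norm_num) hcard)

/-- the recursive bound -/
def g : ℕ → ℕ
  | 0 => 0
  | m + 1 => 2 ^ (m + 2)! * (2 * g m + 1)

theorem g_le_succ (m : ℕ) : g m ≤ g (m + 1) := by
  have h : 0 < 2 ^ (m + 2)! := by positivity
  have h2 : 2 * g m + 1 ≤ 2 ^ (m + 2)! * (2 * g m + 1) := Nat.le_mul_of_pos_left _ h
  show g m ≤ 2 ^ (m + 2)! * (2 * g m + 1)
  omega

theorem g_bound (m : ℕ) : g m ≤ 2 ^ (m + 2)! := by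
  induction m with
  | zero => exact Nat.zero_le _
  | succ m ih =>
    show 2 ^ (m + 2)! * (2 * g m + 1) ≤ 2 ^ (m + 3)!
    have h1 : 2 * g m + 1 ≤ 2 ^ ((m + 2)! + 2) := by
      have : 2 ^ ((m + 2)! + 2) = 2 ^ (m + 2)! * 4 := by rw [pow_add]; norm_num
      have h0 : 0 < 2 ^ (m + 2)! := by positivity
      omega
    calc 2 ^ (m + 2)! * (2 * g m + 1) ≤ 2 ^ (m + 2)! * 2 ^ ((m + 2)! + 2) :=
          Nat.mul_le_mul_left _ h1
      _ = 2 ^ ((m + 2)! + ((m + 2)! + 2)) := by rw [← pow_add]
      _ ≤ 2 ^ (m + 3)! := by
          refine Nat.pow_le_pow_right (by norm_num) ?_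
          have h2 : (m + 3)! = (m + 3) * (m + 2)! := Nat.factorial_succ (m + 2)
          have h3 : 2 ≤ (m + 2)! := by
            calc 2 = 2! := rfl
              _ ≤ (m + 2)! := Nat.factorial_le (by omega)
          rw [h2]
          nlinarith

theorem main_bound (C m : ℕ) : ∀ T B : List (Sym A V), Paired (T ++ B) →
    (T ++ B).length ≤ m → cc (T ++ B) ≤ C → (∃ n, Sol T B n) → N T B ≤ C * g m := by
  induction m with
  | zero =>
    intro T B _ hm _ hs
    have : T = [] := by
      simp only [List.length_append] at hm
      exact List.length_eq_zero_iff.1 (by omega)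
    subst this
    rw [N_nil_left hs]
    exact Nat.zero_le _
  | succ m ih =>
    intro T B hP hm hC hs
    by_cases hm' : (T ++ B).length ≤ m
    · exact (ih T B hP hm' hC hs).trans (Nat.mul_le_mul_left _ (g_le_succ m))
    · have hlen : (T ++ B).length = m + 1 := by omega
      have key := class_bound (T ++ B) hP (C * (2 * g m + 1)) (by
        intro T' B' h1 h2 h3 h4
        have := ih T' B' h1 (by omega) (h3.trans hC) h4
        nlinarith) (N T B) T B (List.Perm.refl _) hs rfl
      refine key.trans ?_
      have h5 : ((states (T ++ B)).filter (fun E => N E.1 E.2 < N T B)).card ≤ (m + 2)! := by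
        refine (Finset.card_filter_le _ _).trans ?_
        have := card_states (T ++ B)
        rwa [hlen] at this
      calc 2 ^ ((states (T ++ B)).filter (fun E => N E.1 E.2 < N T B)).card *
            (C * (2 * g m + 1)) ≤ 2 ^ (m + 2)! * (C * (2 * g m + 1)) :=
            Nat.mul_le_mul_right _ (Nat.pow_le_pow_right (by norm_num) h5)
        _ = C * g (m + 1) := by
            show _ = C * (2 ^ (m + 2)! * (2 * g m + 1))
            ring

end WE45
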