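import Pool.Agent.WE45.Count

/-! Quadratic word equations with few repeated variables (MP_fc7ad9_lc). Helper module:
from word equations to pairs of symbol lists and back. -/

namespace WE45

open scoped Nat

variable {A X : Type*}

instance lawfulSum [DecidableEq A] [DecidableEq X] : LawfulBEq (A ⊕ X) where
  eq_of_beq {a b} h := by
    cases a with
    | inl a =>
      cases b with
      | inl b =>
        have h' : (a == b) = true := h
        rw [eq_of_beq h']
      | inr b =>
        have h' : false = true := h
        exact absurd h' (by decide)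
    | inr a =>
      cases b with
      | inr b =>
        have h' : (a == b) = true := h
        rw [eq_of_beq h']
      | inl b =>
        have h' : false = true := h
        exact absurd h' (by decide)
  rfl {a} := by
    cases a with
    | inl a => show (a == a) = true; exact beq_self_eq_true a
    | inr a => show (a == a) = true; exact beq_self_eq_true a

/-- value of a word -/
def sb (σ : X → List A) (w : List (A ⊕ X)) : List A :=
  w.flatMap (Sum.elim (fun a => [a]) σ)

theorem sb_nil (σ : X → List A) : sb σ [] = [] := rfl

theorem sb_inl (σ : X → List A) (a : A) (l : List (A ⊕ X)) :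
    sb σ (.inl a :: l) = a :: sb σ l := by
  simp [sb]

theorem sb_inr (σ : X → List A) (x : X) (l : List (A ⊕ X)) :
    sb σ (.inr x :: l) = σ x ++ sb σ l := by
  simp [sb]

theorem sb_append (σ : X → List A) (l l' : List (A ⊕ X)) :
    sb σ (l ++ l') = sb σ l ++ sb σ l' := by
  simp [sb]

theorem sb_congr {σ τ : X → List A} : ∀ (l : List (A ⊕ X)),
    (∀ x, .inr x ∈ l → σ x = τ x) → sb σ l = sb τ l
  | [], _ => rfl
  | .inl a :: l, h => by
      rw [sb_inl, sb_inl, sb_congr l (fun x hx => h x (List.mem_cons_of_mem _ hx))]
  | .inr x :: l, h => by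
      rw [sb_inr, sb_inr, sb_congr l (fun z hz => h z (List.mem_cons_of_mem _ hz)),
        h x (by simp)]

variable (D : X → Prop) [DecidablePred D]

/-- grouping of the constants and the single variables (stars) into segments -/
def enc : List (A ⊕ X) → List (Option A) × List (Sym A X)
  | [] => ([], [])
  | .inl a :: l => (some a :: (enc l).1, (enc l).2)
  | .inr x :: l =>
    if D x then ([], .var x :: .seg (enc l).1 :: (enc l).2)
    else (none :: (enc l).1, (enc l).2)

/-- the list of symbols of a word -/
def en (l : List (A ⊕ X)) : List (Sym A X) := .seg (enc D l).1 :: (enc D l).2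

theorem en_nil : en D ([] : List (A ⊕ X)) = [.seg []] := rfl

theorem en_inl (a : A) (l : List (A ⊕ X)) :
    en D (.inl a :: l) = .seg (some a :: (enc D l).1) :: (enc D l).2 := rfl

theorem en_inr_pos {x : X} (hx : D x) (l : List (A ⊕ X)) :
    en D (.inr x :: l) = .seg [] :: .var x :: en D l := by
  simp [en, enc, hx]

theorem en_inr_neg {x : X} (hx : ¬ D x) (l : List (A ⊕ X)) :
    en D (.inr x :: l) = .seg (none :: (enc D l).1) :: (enc D l).2 := by
  simp [en, enc, hx]

theorem val_en (σ : X → List A) : ∀ l : List (A ⊕ X), Val σ (en D l) (sb σ l)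
  | [] => ⟨[], [], rfl, rfl, rfl⟩
  | .inl a :: l => by
      obtain ⟨u, w', h, h1, h2⟩ := val_en σ l
      rw [en_inl, sb_inl, h]
      exact ⟨a :: u, w', rfl, ⟨u, rfl, h1⟩, h2⟩
  | .inr x :: l => by
      have h0 := val_en σ l
      obtain ⟨u, w', h, h1, h2⟩ := h0
      by_cases hx : D x
      · rw [en_inr_pos D hx, sb_inr]
        exact ⟨[], _, rfl, rfl, σ x, sb σ l, rfl, rfl, val_en σ l⟩
      · rw [en_inr_neg D hx, sb_inr, h]
        exact ⟨σ x ++ u, w', by simp, ⟨σ x, u, rfl, h1⟩, h2⟩

theorem of_val_en [DecidableEq A] [DecidableEq X] (σ : X → List A) :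
    ∀ (l : List (A ⊕ X)) (w : List A), (∀ x, ¬ D x → l.count (.inr x) ≤ 1) →
      Val σ (en D l) w → ∃ τ : X → List A, (∀ x, D x → τ x = σ x) ∧ sb τ l = w
  | [], w, _, h => by
      obtain ⟨u, w', rfl, h1, h2⟩ := h
      have h3 : u = [] := h1
      have h4 : w' = [] := h2
      subst h3; subst h4
      exact ⟨σ, fun _ _ => rfl, rfl⟩
  | .inl a :: l, w, hc, h => by
      rw [en_inl] at h
      obtain ⟨u, w', rfl, ⟨u', rfl, h1⟩, h2⟩ := h
      obtain ⟨τ, h3, h4⟩ := of_val_en σ l (u' ++ w')
        (fun x hx => (List.count_le_count_cons (a := Sum.inr x) (b := Sum.inl a) (l := l)).trans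
          (hc x hx)) ⟨u', w', rfl, h1, h2⟩
      exact ⟨τ, h3, by rw [sb_inl, h4]; rfl⟩
  | .inr x :: l, w, hc, h => by
      have hc' : ∀ z, ¬ D z → l.count (.inr z) ≤ 1 := fun z hz =>
        (List.count_le_count_cons (a := Sum.inr z) (b := Sum.inr x) (l := l)).trans (hc z hz)
      by_cases hx : D x
      · rw [en_inr_pos D hx] at h
        obtain ⟨u, w', rfl, h1, u2, w2, rfl, h2, h3⟩ := h
        have h4 : u = [] := h1
        have h5 : u2 = σ x := h2
        subst h4; subst h5
        obtain ⟨τ, h6, h7⟩ := of_val_en σ l w2 hc' h3
        exact ⟨τ, h6, by rw [sb_inr, h7, h6 x hx]; rfl⟩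
      · rw [en_inr_neg D hx] at h
        obtain ⟨u, w', rfl, ⟨v, u', rfl, h1⟩, h2⟩ := h
        obtain ⟨τ, h3, h4⟩ := of_val_en σ l (u' ++ w') hc' ⟨u', w', rfl, h1, h2⟩
        have hn : (Sum.inr x : A ⊕ X) ∉ l := by
          have := hc x hx
          rw [List.count_cons_self] at this
          exact List.count_eq_zero.1 (by omega)
        refine ⟨Function.update τ x v, ?_, ?_⟩
        · intro z hz
          rw [Function.update_of_ne (by rintro rfl; exact hx hz)]
          exact h3 z hz
        · rw [sb_inr, Function.update_self, sb_congr (τ := τ) l, h4]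
          · simp
          · intro z hz
            rw [Function.update_of_ne]
            rintro rfl
            exact hn hz

theorem count_en [DecidableEq A] [DecidableEq X] (x : X) : ∀ l : List (A ⊕ X),
    (en D l).count (.var x) = if D x then l.count (.inr x) else 0
  | [] => by simp [en_nil]
  | .inl a :: l => by
      have ih := count_en x l
      rw [en_inl]
      simp only [en, List.count_cons] at ih ⊢
      simpa using ih
  | .inr z :: l => by
      have ih := count_en x l
      by_cases hz : D z
      · rw [en_inr_pos D hz, List.count_cons, List.count_cons, ih]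
        by_cases hzx : z = x
        · subst hzx
          simp [hz]
        · by_cases hx : D x <;> simp [hzx, hx]
      · rw [en_inr_neg D hz]
        simp only [en, List.count_cons] at ih ⊢
        by_cases hx : D x
        · have hzx : z ≠ x := by rintro rfl; exact hz hx
          simpa [hx, hzx] using ih
        · simpa [hx] using ih

theorem length_en [Fintype X] [DecidableEq A] [DecidableEq X] : ∀ l : List (A ⊕ X),
    (en D l).length = 1 + 2 * ∑ x ∈ Finset.univ.filter D, l.count (.inr x)
  | [] => by simp [en_nil]
  | .inl a :: l => by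
      have ih := length_en l
      rw [en_inl]
      simp only [en, List.length_cons] at ih ⊢
      rw [ih]
      simp [List.count_cons]
  | .inr z :: l => by
      have ih := length_en l
      by_cases hz : D z
      · rw [en_inr_pos D hz, List.length_cons, List.length_cons, ih]
        have h1 : ∑ x ∈ Finset.univ.filter D, (Sum.inr z :: l : List (A ⊕ X)).count (.inr x) =
            ∑ x ∈ Finset.univ.filter D, l.count (.inr x) + 1 := by
          simp only [List.count_cons, Finset.sum_add_distrib]
          congr 1
          rw [Finset.sum_eq_single z]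
          · simp
          · intro b _ hb
            simp [Ne.symm hb]
          · intro h
            exact absurd (Finset.mem_filter.2 ⟨Finset.mem_univ _, hz⟩) h
        rw [h1]
        ring
      · rw [en_inr_neg D hz]
        simp only [en, List.length_cons] at ih ⊢
        rw [ih]
        congr 2
        refine Finset.sum_congr rfl ?_
        intro x hx
        have hzx : z ≠ x := by
          rintro rfl
          exact hz (Finset.mem_filter.1 hx).2
        rw [List.count_cons_of_ne]
        simpa using hzx

theorem cc_en : ∀ l : List (A ⊕ X), cc (en D l) ≤ l.length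
  | [] => by simp [en_nil, cc, cS, cP]
  | .inl a :: l => by
      have ih := cc_en l
      rw [en_inl]
      simp only [en, cc_cons, cS, cP, List.length_cons] at ih ⊢
      omega
  | .inr z :: l => by
      have ih := cc_en l
      by_cases hz : D z
      · rw [en_inr_pos D hz, cc_cons, cc_cons, List.length_cons]
        simp only [cS, cP]
        omega
      · rw [en_inr_neg D hz]
        simp only [en, cc_cons, cS, cP, List.length_cons] at ih ⊢
        omega

theorem sum_le_sb [Fintype X] [DecidableEq A] [DecidableEq X] (τ : X → List A) :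
    ∀ l : List (A ⊕ X), ∑ x, (τ x).length * l.count (.inr x) ≤ (sb τ l).length
  | [] => by simp
  | .inl a :: l => by
      have ih := sum_le_sb τ l
      rw [sb_inl, List.length_cons]
      refine le_trans (le_of_eq ?_) (ih.trans (Nat.le_succ _))
      refine Finset.sum_congr rfl ?_
      intro x _
      rw [List.count_cons_of_ne (by simp)]
  | .inr z :: l => by
      have ih := sum_le_sb τ l
      rw [sb_inr, List.length_append]
      have h1 : ∑ x, (τ x).length * (Sum.inr z :: l : List (A ⊕ X)).count (.inr x) =
          ∑ x, (τ x).length * l.count (.inr x) + (τ z).length := by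
        simp only [List.count_cons, mul_add, Finset.sum_add_distrib]
        congr 1
        rw [Finset.sum_eq_single z]
        · simp
        · intro b _ hb
          simp [Ne.symm hb]
        · intro h
          exact absurd (Finset.mem_univ _) h
      rw [h1]
      omega

/-- The bound for quadratic word equations with at most `k` repeated variables. -/
theorem few_repeated [Fintype X] [DecidableEq A] [DecidableEq X] (k : ℕ)
    (L R : List (A ⊕ X))
    (h2 : ∀ x : X, (L ++ R).count (Sum.inr x) ≤ 2)
    (hk : (Finset.univ.filter (fun x : X => (L ++ R).count (Sum.inr x) = 2)).card ≤ k)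
    (hs : ∃ σ : X → List A, sb σ L = sb σ R) :
    ∃ σ : X → List A, sb σ L = sb σ R ∧
      ∑ x, (σ x).length ≤ 2 ^ ((4 * k + 4)! + 1) * (L.length + R.length) := by
  set D : X → Prop := fun x => (L ++ R).count (Sum.inr x) = 2 with hD
  have hP : Paired (en D L ++ en D R) := by
    intro x
    rw [List.count_append, count_en, count_en]
    by_cases hx : D x
    · right
      rw [if_pos hx, if_pos hx, ← List.count_append]
      exact hx
    · left
      rw [if_neg hx, if_neg hx]
  have hlen : (en D L ++ en D R).length ≤ 4 * k + 2 := by
    rw [List.length_append, length_en, length_en]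
    have h3 : ∑ x ∈ Finset.univ.filter D, L.count (Sum.inr x) +
        ∑ x ∈ Finset.univ.filter D, R.count (Sum.inr x) = 2 * (Finset.univ.filter D).card := by
      rw [← Finset.sum_add_distrib, Finset.sum_congr rfl (g := fun _ => 2)]
      · rw [Finset.sum_const, smul_eq_mul, mul_comm]
      · intro x hx
        rw [← List.count_append]
        exact (Finset.mem_filter.1 hx).2
    have h4 : (Finset.univ.filter D).card ≤ k := hk
    omega
  have hcc : cc (en D L ++ en D R) ≤ L.length + R.length := by
    rw [cc_append]
    exact Nat.add_le_add (cc_en D L) (cc_en D R)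
  obtain ⟨σ0, hσ0⟩ := hs
  have hsol : ∃ n, Sol (en D L) (en D R) n :=
    ⟨_, σ0, sb σ0 L, val_en D σ0 L, by rw [hσ0]; exact val_en D σ0 R, rfl⟩
  have hN := main_bound (L.length + R.length) (4 * k + 2) _ _ hP hlen hcc hsol
  obtain ⟨σ, w, hT, hB, hw⟩ := N_sol hsol
  have c1 : ∀ x, ¬ D x → L.count (.inr x) + R.count (.inr x) ≤ 1 := by
    intro x hx
    have h3 := h2 x
    have h4 : (L ++ R).count (Sum.inr x) ≠ 2 := hx
    rw [List.count_append] at h3 h4
    omega
  obtain ⟨τL, hL1, hL2⟩ := of_val_en D σ L w (fun x hx => by have := c1 x hx; omega) hT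
  obtain ⟨τR, hR1, hR2⟩ := of_val_en D σ R w (fun x hx => by have := c1 x hx; omega) hB
  let τ : X → List A := fun x => if D x then σ x else
    if (Sum.inr x : A ⊕ X) ∈ L then τL x else if (Sum.inr x : A ⊕ X) ∈ R then τR x else []
  have e1 : sb τ L = w := by
    rw [← hL2]
    refine sb_congr _ ?_
    intro x hx
    by_cases hDx : D x
    · show (if D x then σ x else _) = _
      rw [if_pos hDx, hL1 x hDx]
    · show (if D x then σ x else
        if (Sum.inr x : A ⊕ X) ∈ L then τL x else _) = _
      rw [if_neg hDx, if_pos hx]
  have e2 : sb τ R = w := by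
    rw [← hR2]
    refine sb_congr _ ?_
    intro x hx
    by_cases hDx : D x
    · show (if D x then σ x else _) = _
      rw [if_pos hDx, hR1 x hDx]
    · have hnL : (Sum.inr x : A ⊕ X) ∉ L := by
        have h3 := c1 x hDx
        have h4 : 0 < R.count (.inr x) := List.count_pos_iff.2 hx
        exact List.count_eq_zero.1 (by omega)
      show (if D x then σ x else
        if (Sum.inr x : A ⊕ X) ∈ L then τL x else
          if (Sum.inr x : A ⊕ X) ∈ R then τR x else _) = _
      rw [if_neg hDx, if_neg hnL, if_pos hx]
  refine ⟨τ, e1.trans e2.symm, ?_⟩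
  have h5 : ∑ x, (τ x).length ≤ ∑ x, (τ x).length * (L ++ R).count (.inr x) := by
    refine Finset.sum_le_sum ?_
    intro x _
    by_cases h0 : (L ++ R).count (Sum.inr x) = 0
    · have h6 : (Sum.inr x : A ⊕ X) ∉ L ++ R := List.count_eq_zero.1 h0
      have h7 : ¬ D x := by
        show ¬ (L ++ R).count (Sum.inr x) = 2
        omega
      have h8 : τ x = [] := by
        show (if D x then σ x else
          if (Sum.inr x : A ⊕ X) ∈ L then τL x else
            if (Sum.inr x : A ⊕ X) ∈ R then τR x else []) = []
        rw [if_neg h7, if_neg (fun h => h6 (List.mem_append_left _ h)),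
          if_neg (fun h => h6 (List.mem_append_right _ h))]
      rw [h8]
      simp
    · exact Nat.le_mul_of_pos_right _ (Nat.pos_of_ne_zero h0)
  have h6 := h5.trans (sum_le_sb τ (L ++ R))
  rw [sb_append, e1, e2, List.length_append, hw] at h6
  have h7 : (L.length + R.length) * g (4 * k + 2) ≤
      (L.length + R.length) * 2 ^ (4 * k + 4)! :=
    Nat.mul_le_mul_left _ (g_bound _)
  calc ∑ x, (τ x).length ≤ N (en D L) (en D R) + N (en D L) (en D R) := h6
    _ ≤ 2 * ((L.length + R.length) * 2 ^ (4 * k + 4)!) := by omega
    _ = 2 ^ ((4 * k + 4)! + 1) * (L.length + R.length) := by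
        rw [pow_succ]
        ring

end WE45
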