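import Pool.Agent.WE45.Base

/-! Quadratic word equations with few repeated variables (MP_fc7ad9_lc). Helper module:
one reduction step. -/

namespace WE45

variable {A V : Type*} [DecidableEq A] [DecidableEq V]

/-- Outcome of one reduction step: fewer symbols, or the same symbols and a shorter value. -/
def Red (T B : List (Sym A V)) (n : ℕ) : Prop :=
  (∃ T' B' : List (Sym A V), Paired (T' ++ B') ∧ (T' ++ B').length < (T ++ B).length ∧
     cc (T' ++ B') ≤ cc (T ++ B) ∧ (∃ n', Sol T' B' n') ∧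
     ∀ n', Sol T' B' n' → ∃ n'', n'' ≤ 2 * n' + cc (T ++ B) ∧ Sol T B n'') ∨
  (∃ T' B' : List (Sym A V), (T ++ B).Perm (T' ++ B') ∧ (∃ n', n' < n ∧ Sol T' B' n') ∧
     ∀ n', Sol T' B' n' → ∃ n'', n'' ≤ 2 * n' ∧ Sol T B n'')

omit [DecidableEq A] [DecidableEq V] in
theorem sol_swap {T B : List (Sym A V)} {n : ℕ} : Sol T B n ↔ Sol B T n :=
  ⟨Sol.swap, Sol.swap⟩

theorem Red.swap {T B : List (Sym A V)} {n : ℕ} (h : Red B T n) : Red T B n := by
  have hp : (T ++ B).Perm (B ++ T) := List.perm_append_comm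
  rcases h with ⟨T', B', h1, h2, h3, h4, h5⟩ | ⟨T', B', h1, h2, h3⟩
  · left
    refine ⟨T', B', h1, by rw [hp.length_eq]; exact h2, by rw [cc_perm hp]; exact h3, h4, ?_⟩
    intro n' hn'
    obtain ⟨n'', h6, h7⟩ := h5 n' hn'
    exact ⟨n'', by rw [cc_perm hp]; exact h6, h7.swap⟩
  · right
    refine ⟨T', B', hp.trans h1, h2, ?_⟩
    intro n' hn'
    obtain ⟨n'', h6, h7⟩ := h3 n' hn'
    exact ⟨n'', h6, h7.swap⟩

/-- both fronts are segments -/
theorem red_seg_seg {S S' : List (Option A)} {T B : List (Sym A V)} {σ : V → List A}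
    {u1 v w2 : List A} {n : ℕ}
    (hP : Paired ((.seg S :: T) ++ (.seg S' :: B)))
    (h1 : Mt S u1) (hT : Val σ T (v ++ w2)) (h2 : Mt S' (u1 ++ v)) (hB : Val σ B w2) :
    Red (.seg S :: T) (.seg S' :: B) n := by
  left
  obtain ⟨S1, S2, h3, h4, h5, h6⟩ := mt_cut S' u1 v h2
  obtain ⟨u0, h7, h8, h9⟩ := common _ S S1 u1 le_rfl h1 h3
  have hp1 : ((.seg S :: T) ++ (.seg S' :: B) : List (Sym A V)).Perm
      (.seg S :: .seg S' :: (T ++ B)) := List.Perm.cons _ List.perm_middle
  have hp2 : (T ++ (.seg S2 :: B) : List (Sym A V)).Perm (.seg S2 :: (T ++ B)) :=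
    List.perm_middle
  refine ⟨T, .seg S2 :: B, ?_, ?_, ?_, ⟨_, σ, v ++ w2, hT, ⟨v, w2, rfl, h4, hB⟩, rfl⟩, ?_⟩
  · exact (((hP.perm hp1).drop_seg).drop_seg.add_seg).perm hp2.symm
  · simp
  · simp only [cc_append, cc_cons, cS]
    omega
  · rintro n' ⟨σ', w', hT', ⟨v', w2', rfl, hv', hB'⟩, rfl⟩
    refine ⟨_, ?_, σ', u0 ++ (v' ++ w2'), ⟨u0, _, rfl, h7, hT'⟩,
      ⟨u0 ++ v', w2', by simp, h6 _ _ h8 hv', hB'⟩, rfl⟩
    simp only [cc_append, cc_cons, cS, List.length_append]
    omega

/-- the shorter front is a variable, the longer one a segment -/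
theorem red_var_seg {x : V} {S' : List (Option A)} {T B : List (Sym A V)} {σ : V → List A}
    {u1 v w2 : List A} {n : ℕ}
    (hP : Paired ((.var x :: T) ++ (.seg S' :: B)))
    (h1 : u1 = σ x) (hT : Val σ T (v ++ w2)) (h2 : Mt S' (u1 ++ v)) (hB : Val σ B w2) :
    Red (.var x :: T) (.seg S' :: B) n := by
  left
  obtain ⟨S1, S2, h3, h4, h5, h6⟩ := mt_cut S' u1 v h2
  have hc : (T ++ B).count (.var x) = 1 := by
    have hp0 : ((.var x :: T) ++ (.seg S' :: B) : List (Sym A V)).Perm
      (.seg S' :: .var x :: (T ++ B)) :=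
      (List.Perm.cons _ List.perm_middle).trans (List.Perm.swap _ _ _)
    have := (hP.perm hp0).drop_seg x
    simp only [List.count_cons, beq_self_eq_true, if_true] at this
    omega
  obtain ⟨F, K, rest, hF1, hF2, hF3, hF4, hF5⟩ := ctx x T B hc
  have hTB : (T ++ B).Perm (.var x :: rest) := by
    have := hF2 [.var x]
    rw [hF1] at this
    simpa using this
  have hp1 : ((.var x :: T) ++ (.seg S' :: B) : List (Sym A V)).Perm
      (.seg S' :: .var x :: .var x :: rest) := by
    have e1 : ((.var x :: T) ++ (.seg S' :: B) : List (Sym A V)).Perm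
      (.var x :: .seg S' :: (T ++ B)) := List.Perm.cons _ List.perm_middle
    exact e1.trans ((List.Perm.swap _ _ _).trans ((hTB.cons _).cons _))
  have hp2 : ((F [.seg S1]).1 ++ (.seg S2 :: (F [.seg S1]).2) : List (Sym A V)).Perm
      (.seg S2 :: .seg S1 :: rest) := by
    refine List.perm_middle.trans (List.Perm.cons _ ?_)
    simpa using hF2 [.seg S1]
  refine ⟨(F [.seg S1]).1, .seg S2 :: (F [.seg S1]).2, ?_, ?_, ?_, ?_, ?_⟩
  · exact ((hP.perm hp1).drop_seg.drop_two.add_seg.add_seg).perm hp2.symm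
  · rw [hp1.length_eq, hp2.length_eq]; simp
  · rw [cc_perm hp1, cc_perm hp2]
    simp only [cc_cons, cS]
    omega
  · have h7 : Val σ (F [.var x]).1 (v ++ w2) ∧ Val σ (F [.var x]).2 w2 := by
      rw [hF1]; exact ⟨hT, hB⟩
    obtain ⟨u, hu, hK⟩ := (hF3 _ _ _ _).1 h7
    have hu' : u = σ x := (val_single _ _ _).1 hu
    rw [hu', ← h1] at hK
    obtain ⟨h8, h9⟩ := (hF3 [.seg S1] σ (v ++ w2) w2).2 ⟨u1, (val_single _ _ _).2 h3, hK⟩
    exact ⟨_, σ, v ++ w2, h8, ⟨v, w2, rfl, h4, h9⟩, rfl⟩
  · rintro n' ⟨σ', w', hT', ⟨v', w2', rfl, hv', hB'⟩, rfl⟩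
    obtain ⟨u', hu', hK⟩ := (hF3 [.seg S1] σ' (v' ++ w2') w2').1 ⟨hT', hB'⟩
    have hu1 : Mt S1 u' := (val_single _ _ _).1 hu'
    have hlen := hF5 _ _ _ _ hK
    have hK' : K (Function.update σ' x u') u' (v' ++ w2') w2' := by
      refine hF4 _ _ _ _ _ ?_ hK
      intro z hz
      rw [Function.update_of_ne hz]
    have hv : Val (Function.update σ' x u') [.var x] u' :=
      (val_single _ _ _).2 (by show u' = _; rw [Function.update_self])
    have h8 := (hF3 [.var x] (Function.update σ' x u') (v' ++ w2') w2').2 ⟨u', hv, hK'⟩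
    rw [hF1] at h8
    refine ⟨_, ?_, Function.update σ' x u', u' ++ (v' ++ w2'),
      ⟨u', _, rfl, by show u' = _; rw [Function.update_self], h8.1⟩,
      ⟨u' ++ v', w2', by simp, h6 _ _ hu1 hv', h8.2⟩, rfl⟩
    simp only [List.length_append] at hlen ⊢
    omega

/-- both fronts are the same variable -/
theorem red_same {x : V} {T B : List (Sym A V)} {σ : V → List A} {w : List A} {n : ℕ}
    (hP : Paired ((.var x :: T) ++ (.var x :: B)))
    (hT : Val σ T w) (hB : Val σ B w) :
    Red (.var x :: T) (.var x :: B) n := by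
  left
  have hp1 : ((.var x :: T) ++ (.var x :: B) : List (Sym A V)).Perm
      (.var x :: .var x :: (T ++ B)) := List.Perm.cons _ List.perm_middle
  have hP2 : Paired (T ++ B) := (hP.perm hp1).drop_two
  have hc : (T ++ B).count (.var x) = 0 := by
    have h1 := hP.perm hp1 x
    have h2 := hP2 x
    simp only [List.count_cons, beq_self_eq_true, if_true] at h1
    omega
  have hn : (Sym.var x : Sym A V) ∉ T ++ B := List.count_eq_zero.1 hc
  refine ⟨T, B, hP2, ?_, ?_, ⟨_, σ, w, hT, hB, rfl⟩, ?_⟩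
  · rw [hp1.length_eq]; simp
  · rw [cc_perm hp1]; simp [cc_cons, cS]
  · rintro n' ⟨σ', w', hT', hB', rfl⟩
    have e : ∀ z, (Sym.var z : Sym A V) ∈ T ++ B → σ' z = Function.update σ' x [] z := by
      intro z hz
      rw [Function.update_of_ne]
      rintro rfl
      exact hn hz
    refine ⟨w'.length, by omega, Function.update σ' x [], w', ?_, ?_, rfl⟩
    · exact ⟨[], w', rfl, by show [] = _; rw [Function.update_self],
        val_congr _ _ (fun z hz => e z (List.mem_append_left _ hz)) hT'⟩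
    · exact ⟨[], w', rfl, by show [] = _; rw [Function.update_self],
        val_congr _ _ (fun z hz => e z (List.mem_append_right _ hz)) hB'⟩

/-- an empty front segment -/
theorem red_seg_nil {S : List (Option A)} {T B : List (Sym A V)} {σ : V → List A}
    {w : List A} {n : ℕ}
    (hP : Paired ((.seg S :: T) ++ B))
    (h1 : Mt S []) (hT : Val σ T w) (hB : Val σ B w) :
    Red (.seg S :: T) B n := by
  left
  refine ⟨T, B, ?_, ?_, ?_, ⟨_, σ, w, hT, hB, rfl⟩, ?_⟩
  · exact Paired.drop_seg (S := S) hP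
  · simp
  · simp only [cc_append, cc_cons, cS]
    omega
  · rintro n' ⟨σ', w', hT', hB', rfl⟩
    exact ⟨w'.length, by omega, σ', w', ⟨[], w', rfl, h1, hT'⟩, hB', rfl⟩

/-- an empty front variable -/
theorem red_var_nil {x : V} {T B : List (Sym A V)} {σ : V → List A}
    {w : List A} {n : ℕ}
    (hP : Paired ((.var x :: T) ++ B))
    (h1 : [] = σ x) (hT : Val σ T w) (hB : Val σ B w) :
    Red (.var x :: T) B n := by
  left
  have hc : (T ++ B).count (.var x) = 1 := by
    have := hP x
    simp only [List.cons_append, List.count_cons, beq_self_eq_true,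
      if_true] at this
    omega
  obtain ⟨F, K, rest, hF1, hF2, hF3, hF4, hF5⟩ := ctx x T B hc
  have hTB : (T ++ B).Perm (.var x :: rest) := by
    have := hF2 [.var x]
    rw [hF1] at this
    simpa using this
  have hp1 : ((.var x :: T) ++ B : List (Sym A V)).Perm (.var x :: .var x :: rest) :=
    List.Perm.cons _ hTB
  have hp2 : ((F []).1 ++ (F []).2).Perm rest := by simpa using hF2 []
  refine ⟨(F []).1, (F []).2, ?_, ?_, ?_, ?_, ?_⟩
  · exact ((hP.perm hp1).drop_two).perm hp2.symm
  · rw [hp1.length_eq, hp2.length_eq]; simp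
  · rw [cc_perm hp1, cc_perm hp2]
    simp [cc_cons, cS]
  · have h7 : Val σ (F [.var x]).1 w ∧ Val σ (F [.var x]).2 w := by
      rw [hF1]; exact ⟨hT, hB⟩
    obtain ⟨u, hu, hK⟩ := (hF3 _ _ _ _).1 h7
    have hu' : u = σ x := (val_single _ _ _).1 hu
    rw [hu', ← h1] at hK
    obtain ⟨h8, h9⟩ := (hF3 [] σ w w).2 ⟨[], rfl, hK⟩
    exact ⟨_, σ, w, h8, h9, rfl⟩
  · rintro n' ⟨σ', w', hT', hB', rfl⟩
    obtain ⟨u', hu', hK⟩ := (hF3 [] σ' w' w').1 ⟨hT', hB'⟩
    have hu1 : u' = [] := hu'
    subst hu1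
    have hK' : K (Function.update σ' x []) [] w' w' := by
      refine hF4 _ _ _ _ _ ?_ hK
      intro z hz
      rw [Function.update_of_ne hz]
    have hv : Val (Function.update σ' x []) [.var x] [] :=
      (val_single _ _ _).2 (by show [] = _; rw [Function.update_self])
    have h8 := (hF3 [.var x] (Function.update σ' x []) w' w').2 ⟨[], hv, hK'⟩
    rw [hF1] at h8
    exact ⟨w'.length, by omega, Function.update σ' x [], w',
      ⟨[], w', rfl, by show [] = _; rw [Function.update_self], h8.1⟩, h8.2, rfl⟩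

/-- the longer front is a variable different from the shorter, nonempty front:
the value gets shorter, the symbols stay the same -/
theorem red_win {p : Sym A V} {y : V} {T B : List (Sym A V)} {σ : V → List A}
    {u1 v w2 : List A}
    (hP : Paired ((p :: T) ++ (.var y :: B))) (hpy : p ≠ .var y) (hu1 : u1 ≠ [])
    (h1 : SV σ p u1) (hT : Val σ T (v ++ w2)) (h2 : u1 ++ v = σ y) (hB : Val σ B w2) :
    Red (p :: T) (.var y :: B) (u1 ++ (v ++ w2)).length := by
  right
  have hc : (T ++ B).count (.var y) = 1 := by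
    have := hP y
    simp only [List.cons_append, List.count_cons, List.count_append, beq_self_eq_true,
      if_true, beq_iff_eq, if_neg hpy] at this
    simp only [List.count_append]
    omega
  obtain ⟨F, K, rest, hF1, hF2, hF3, hF4, hF5⟩ := ctx y T B hc
  have hTB : (T ++ B).Perm (.var y :: rest) := by
    have := hF2 [.var y]
    rw [hF1] at this
    simpa using this
  have hp1 : ((p :: T) ++ (.var y :: B) : List (Sym A V)).Perm
      (.var y :: p :: .var y :: rest) := by
    have e1 : ((p :: T) ++ (.var y :: B) : List (Sym A V)).Perm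
      (p :: .var y :: (T ++ B)) := List.Perm.cons _ List.perm_middle
    exact e1.trans ((List.Perm.swap _ _ _).trans ((hTB.cons _).cons _))
  have hp2 : ((F [p, .var y]).1 ++ (.var y :: (F [p, .var y]).2) : List (Sym A V)).Perm
      (.var y :: p :: .var y :: rest) := by
    refine List.perm_middle.trans (List.Perm.cons _ ?_)
    simpa using hF2 [p, .var y]
  have hsv : ∀ (τ : V → List A) (z u : List A), SV τ p u → SV (Function.update τ y z) p u := by
    intro τ z u h
    refine sv_congr ?_ h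
    rintro x rfl
    rw [Function.update_of_ne]
    rintro rfl
    exact hpy rfl
  refine ⟨(F [p, .var y]).1, .var y :: (F [p, .var y]).2, hp1.trans hp2.symm, ?_, ?_⟩
  · have h7 : Val σ (F [.var y]).1 (v ++ w2) ∧ Val σ (F [.var y]).2 w2 := by
      rw [hF1]; exact ⟨hT, hB⟩
    obtain ⟨u, hu, hK⟩ := (hF3 _ _ _ _).1 h7
    have hu' : u = σ y := (val_single _ _ _).1 hu
    rw [hu', ← h2] at hK
    have hK' : K (Function.update σ y v) (u1 ++ v) (v ++ w2) w2 := by
      refine hF4 _ _ _ _ _ ?_ hK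
      intro z hz
      rw [Function.update_of_ne hz]
    have hv : Val (Function.update σ y v) [p, .var y] (u1 ++ v) :=
      ⟨u1, v, rfl, hsv _ _ _ h1, (val_single _ _ _).2
        (by show v = _; rw [Function.update_self])⟩
    obtain ⟨h8, h9⟩ := (hF3 [p, .var y] (Function.update σ y v) (v ++ w2) w2).2 ⟨_, hv, hK'⟩
    refine ⟨(v ++ w2).length, ?_, Function.update σ y v, v ++ w2, h8,
      ⟨v, w2, rfl, by show v = _; rw [Function.update_self], h9⟩, rfl⟩
    have : 0 < u1.length := List.length_pos_iff.2 hu1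
    simp only [List.length_append]
    omega
  · rintro n' ⟨σ', w', hT', ⟨v', w2', rfl, hv', hB'⟩, rfl⟩
    have hv'' : v' = σ' y := hv'
    obtain ⟨u', hu', hK⟩ := (hF3 [p, .var y] σ' (v' ++ w2') w2').1 ⟨hT', hB'⟩
    obtain ⟨u1', v2', rfl, h8, h9⟩ := hu'
    have hv2 : v2' = σ' y := (val_single _ _ _).1 h9
    have hv3 : v2' = v' := by rw [hv2, hv'']
    subst hv3
    have hlen := hF5 _ _ _ _ hK
    have hK' : K (Function.update σ' y (u1' ++ v2')) (u1' ++ v2') (v2' ++ w2') w2' := by
      refine hF4 _ _ _ _ _ ?_ hK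
      intro z hz
      rw [Function.update_of_ne hz]
    have hv : Val (Function.update σ' y (u1' ++ v2')) [.var y] (u1' ++ v2') :=
      (val_single _ _ _).2 (by show u1' ++ v2' = _; rw [Function.update_self])
    have h10 := (hF3 [.var y] (Function.update σ' y (u1' ++ v2')) (v2' ++ w2') w2').2
      ⟨_, hv, hK'⟩
    rw [hF1] at h10
    refine ⟨_, ?_, Function.update σ' y (u1' ++ v2'), u1' ++ (v2' ++ w2'),
      ⟨u1', _, rfl, hsv _ _ _ h8, h10.1⟩,
      ⟨u1' ++ v2', w2', by simp, by show u1' ++ v2' = _; rw [Function.update_self],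
        h10.2⟩, rfl⟩
    simp only [List.length_append] at hlen ⊢
    omega

/-- the step when the front of the first list has the shorter value -/
theorem red_le {p q : Sym A V} {T B : List (Sym A V)} {σ : V → List A}
    {u1 w1 u2 w2 : List A}
    (hP : Paired ((p :: T) ++ (q :: B)))
    (hw : u1 ++ w1 = u2 ++ w2) (hle : u1.length ≤ u2.length)
    (h1 : SV σ p u1) (hT : Val σ T w1) (h2 : SV σ q u2) (hB : Val σ B w2) :
    Red (p :: T) (q :: B) (u1 ++ w1).length := by
  obtain ⟨v, rfl, rfl⟩ : ∃ v, u2 = u1 ++ v ∧ w1 = v ++ w2 := by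
    rcases List.append_eq_append_iff.1 hw with ⟨y, h3, h4⟩ | ⟨y, h3, h4⟩
    · exact ⟨y, h3, h4⟩
    · have : y = [] := by
        rw [h3, List.length_append] at hle
        exact List.length_eq_zero_iff.1 (by omega)
      subst this
      exact ⟨[], by simpa using h3.symm, by simpa using h4.symm⟩
  cases q with
  | seg S' =>
    cases p with
    | seg S => exact red_seg_seg hP h1 hT h2 hB
    | var x => exact red_var_seg hP h1 hT h2 hB
  | var y =>
    by_cases hpy : p = .var y
    · subst hpy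
      have h3 : u1 = σ y := h1
      have h4 : u1 ++ v = σ y := h2
      have h5 : v = [] := by
        rw [← h3] at h4
        exact List.append_right_eq_self.1 h4
      subst h5
      exact red_same hP (by simpa using hT) hB
    · by_cases hu1 : u1 = []
      · subst hu1
        have hB' : Val σ (.var y :: B) (v ++ w2) := ⟨v, w2, rfl, by simpa using h2, hB⟩
        cases p with
        | seg S => exact red_seg_nil hP h1 hT hB'
        | var x => exact red_var_nil hP h1 hT hB'
      · exact red_win hP hpy hu1 h1 hT h2 hB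

theorem red_step {p q : Sym A V} {T B : List (Sym A V)} {n : ℕ}
    (hP : Paired ((p :: T) ++ (q :: B))) (h : Sol (p :: T) (q :: B) n) :
    Red (p :: T) (q :: B) n := by
  obtain ⟨σ, w, ⟨u1, w1, rfl, h1, hT⟩, ⟨u2, w2, hw, h2, hB⟩, rfl⟩ := h
  rcases le_total u1.length u2.length with hle | hle
  · exact red_le hP hw hle h1 hT h2 hB
  · rw [hw]
    refine Red.swap (red_le ?_ hw.symm hle h2 hB h1 hT)
    exact hP.perm List.perm_append_comm

end WE45
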